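import Pool.Agent.KS6_65.QC.Power

/-!
# Colouring numbers by finite quandles are unbounded on every class of knots modulo `n`

For a finite nonempty quandle `X` (connected or not) let `colourings X K` be the number of colourings
of the knot `K` by `X`. It is at least `Nat.card X`, since there are the constant colourings. We show
that either every knot has only the constant colourings by `X`, or `colourings X` is unbounded on
every class of knots modulo invariants of type `n`, for every `n`: every knot `K` has the same
invariants of type `n` (with values in any abelian group) as a knot with as many colourings as one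
likes. This can be achieved for finitely many quandles at the same time. So `log (colourings X K)` is
either constant on all knots or it is not a Vassiliev invariant, and in the second case it is not
even bounded from above by any function of any Vassiliev invariant; in particular its distance from
every Vassiliev invariant is infinite. Moreover, no function of the numbers of colourings by any
family of finite quandles (finite or infinite) of which at least one value has a finite fibre is a
Vassiliev invariant, except when all these numbers are constant.

Oriented knots are presented as closed braids (with any number of strands, and with one component)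
up to the moves of Markov, and singular knots as closures of singular braids: by the theorems of
Alexander and Markov, and by the theorem of Alexander for singular links (Birman), these are all the
oriented knots up to isotopy and all their singular versions, so that `LinkType` is the usual notion.

A colouring of the diagram given by a braid with `M` strands is determined by the colours of the `M`
strands at the top: these colours are carried through the crossings (`act`), where the strand which
passes over keeps its colour `y`, and the colour `x` of the strand which passes under becomes `y ◃ x`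
at a positive crossing, and the inverse of `y ◃ ·` is applied to it at a negative crossing
(`crossFun`, `crossInv`). The diagram of the closed braid is coloured when the colours at the bottom
are the colours at the top (`Colouring`). The question writes `x * y` for `y ◃ x`.

The proof: if a knot has more than `Nat.card X` colourings, then two of them have the same colour `c`
at the base point. Colourings of two knots with the same colour at the base point are glued to a
colouring of the connected sum. So the number of colourings with the colour `c` at the base point is
at least multiplicative. Let `J` be the connected sum of knots of this kind for the given quandles and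
of an inverse of this sum modulo `n` (theorem of Gusarov). Then the sum of `K` and of `m` copies of
`J` has the same invariants of type `n` as `K` and at least `2 ^ m` colourings by every quandle of the
family.
-/

set_option autoImplicit false

namespace Pool.Agent.Results.MP_cc10d1_gt.UnboundedOnClasses

open Pool.Agent.KS6_65.SL Pool.Agent.KS6_65.QC Pool.Agent.KS6_65.SL.G8

/-- A knot which has, for each of finitely many quandles, two colourings with the same colour at the
base point. -/
theorem exists_common {ι : Type*} (X : ι → Type*) [∀ i, Quandle (X i)] [∀ i, Finite (X i)]
    [∀ i, Nonempty (X i)] (h : ∀ i, ∃ K : Link 1, colourings (X i) K ≠ Nat.card (X i))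
    (F : Finset ι) : ∃ s : StringLink 1, ∀ i ∈ F, ∃ c : X i, Many s 2 c := by
  classical
  induction F using Finset.induction_on with
  | empty => exact ⟨1, fun i hi => absurd hi (Finset.notMem_empty i)⟩
  | insert j F hj ih =>
    obtain ⟨s, hs⟩ := ih
    obtain ⟨K, hK⟩ := h j
    obtain ⟨t, rfl⟩ := exists_closure K
    obtain ⟨c, hc⟩ := exists_many (lt_of_le_of_ne (card_le_colourings (X j) (closure t)) hK.symm)
    refine ⟨t * s, fun i hi => ?_⟩
    rcases Finset.mem_insert.1 hi with rfl | hi
    · exact ⟨c, hc.mul (Many.triv s c)⟩
    · obtain ⟨d, hd⟩ := hs i hi
      exact ⟨d, (Many.triv t d).mul hd⟩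

theorem E_pow {n : ℕ} {u : StringLink 1} (h : E n u 1) (m : ℕ) : E n (u ^ m) 1 := by
  induction m with
  | zero => rw [pow_zero]; exact E_refl _ _
  | succ m ih =>
    rw [pow_succ]
    have := E_mul ih h
    rwa [one_mul] at this

/-- The main theorem. -/
theorem exists_large {ι : Type*} [Finite ι] (X : ι → Type*) [∀ i, Quandle (X i)]
    [∀ i, Finite (X i)] [∀ i, Nonempty (X i)]
    (h : ∀ i, ∃ K : Link 1, colourings (X i) K ≠ Nat.card (X i)) (n B : ℕ) (K : Link 1) :
    ∃ K' : Link 1, (∀ i, B ≤ colourings (X i) K') ∧
      ∀ (A : Type) [AddCommGroup A] (v : Link 1 → A), LinkType n v → v K' = v K := by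
  classical
  have := Fintype.ofFinite ι
  obtain ⟨s, hs⟩ := exists_common X h Finset.univ
  obtain ⟨t, ht, -⟩ := exists_inverse n s
  obtain ⟨r, rfl⟩ := exists_closure K
  refine ⟨closure ((s * t) ^ B * r), fun i => ?_, fun A _ v hv => ?_⟩
  · obtain ⟨c, hc⟩ := hs i (Finset.mem_univ i)
    have h1 : Many (s * t) 2 c := hc.mul (Many.triv t c)
    have h2 : Many ((s * t) ^ B * r) (2 ^ B) c := by
      have := (h1.pow B).mul (Many.triv r c)
      rwa [mul_one] at this
    exact Nat.lt_two_pow_self.le.trans h2.le
  · have h1 : E n ((s * t) ^ B * r) r := by
      have := E_left (E_pow ht B) r
      rwa [one_mul] at this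
    exact eq_of_approx (Approx.of_uni (E_uni h1)) v hv

theorem exists_large_one (X : Type*) [Quandle X] [Finite X] [Nonempty X]
    (h : ∃ K : Link 1, colourings X K ≠ Nat.card X) (n B : ℕ) (K : Link 1) : ∃ K' : Link 1,
    B ≤ colourings X K' ∧
      ∀ (A : Type) [AddCommGroup A] (v : Link 1 → A), LinkType n v → v K' = v K := by
  obtain ⟨K', h1, h2⟩ := exists_large (fun _ : Unit => X) (fun _ => h) n B K
  exact ⟨K', h1 (), h2⟩

/-- (1) Let `X i` be finitely many finite nonempty quandles such that for every `i` some knot does
not have exactly `Nat.card (X i)` colourings by `X i`. Then for every `n`, every bound `B` and every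
knot `K` there is a knot `K'` with at least `B` colourings by every `X i` which has the same
invariants of type `n` as `K`, with values in any abelian group.
(2) Let `X` be a finite nonempty quandle. Then either the logarithm of the number of colourings by `X`
is constant on all knots, or it is not a Vassiliev invariant and moreover, for every invariant `v` of
type `n` with values in an abelian group `A`, for every function `Φ : A → ℝ` and every knot `K₀`,
there is a knot `K` with `v K = v K₀` and `Φ (v K) < log (colourings X K)`.
(3) Let `X i` be any family of finite nonempty quandles and let `f` be any function with values in an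
abelian group such that `f` of the family of the numbers `colourings (X i) K` is a Vassiliev
invariant. If for some knot `K₀` the function `f` takes its value at `fun i => colourings (X i) K₀`
only finitely often, then every knot has exactly `Nat.card (X i)` colourings by `X i`, for every
`i`. -/
theorem result :
    (∀ (ι : Type*) [Finite ι] (X : ι → Type*) [∀ i, Quandle (X i)] [∀ i, Finite (X i)]
      [∀ i, Nonempty (X i)], (∀ i, ∃ K : Link 1, colourings (X i) K ≠ Nat.card (X i)) →
      ∀ (n B : ℕ) (K : Link 1), ∃ K' : Link 1, (∀ i, B ≤ colourings (X i) K') ∧
        ∀ (A : Type) [AddCommGroup A] (v : Link 1 → A), LinkType n v → v K' = v K) ∧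
    (∀ (X : Type*) [Quandle X] [Finite X] [Nonempty X],
      (∀ K K' : Link 1, Real.log (colourings X K) = Real.log (colourings X K')) ∨
      ((∀ n : ℕ, ¬ LinkType n fun K : Link 1 => Real.log (colourings X K)) ∧
        ∀ (n : ℕ) (A : Type) [AddCommGroup A] (v : Link 1 → A), LinkType n v →
          ∀ (Φ : A → ℝ) (K₀ : Link 1), ∃ K : Link 1, v K = v K₀ ∧
            Φ (v K) < Real.log (colourings X K))) ∧
    (∀ (ι : Type*) (X : ι → Type*) [∀ i, Quandle (X i)] [∀ i, Finite (X i)] [∀ i, Nonempty (X i)]
      (A : Type) [AddCommGroup A] (f : (ι → ℕ) → A) (n : ℕ),
      (LinkType n fun K : Link 1 => f fun i => colourings (X i) K) →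
      (∃ K₀ : Link 1, {k : ι → ℕ | f k = f fun i => colourings (X i) K₀}.Finite) →
      ∀ (i : ι) (K : Link 1), colourings (X i) K = Nat.card (X i)) := by
  refine ⟨?_, ?_, ?_⟩
  · intro ι _ X _ _ _ h n B K
    exact exists_large X h n B K
  · intro X _ _ _
    by_cases h : ∃ K : Link 1, colourings X K ≠ Nat.card X
    · right
      have h2 : ∀ (n : ℕ) (A : Type) [AddCommGroup A] (v : Link 1 → A), LinkType n v →
          ∀ (Φ : A → ℝ) (K₀ : Link 1), ∃ K : Link 1, v K = v K₀ ∧
            Φ (v K) < Real.log (colourings X K) := by
        intro n A _ v hv Φ K₀
        obtain ⟨B, hB⟩ := exists_nat_gt (Real.exp (Φ (v K₀)))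
        obtain ⟨K, hK, hv'⟩ := exists_large_one X h n B K₀
        refine ⟨K, hv' A v hv, ?_⟩
        rw [hv' A v hv]
        have h3 : Real.exp (Φ (v K₀)) < colourings X K :=
          lt_of_lt_of_le hB (by exact_mod_cast hK)
        rwa [Real.lt_log_iff_exp_lt (lt_trans (Real.exp_pos _) h3)]
      refine ⟨fun n hn => ?_, h2⟩
      obtain ⟨K₀⟩ : Nonempty (Link 1) := ⟨closure 1⟩
      obtain ⟨K, -, hK⟩ := h2 n ℝ _ hn id K₀
      exact lt_irrefl _ hK
    · left
      push Not at h
      intro K K'
      rw [h K, h K']
  · intro ι X _ _ _ A _ f n hf hfin i K
    obtain ⟨K₀, hfin⟩ := hfin
    by_contra hne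
    obtain ⟨B, hB⟩ := (hfin.image fun k => k i).bddAbove
    obtain ⟨K', hK, hv⟩ := exists_large_one (X i) ⟨K, hne⟩ n (B + 1) K₀
    have h1 := hB ⟨fun i => colourings (X i) K', hv A _ hf, rfl⟩
    exact absurd (hK.trans h1) (by omega)

end Pool.Agent.Results.MP_cc10d1_gt.UnboundedOnClasses
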